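import Mathlib
import Pool.Agent.Helper549.SF02

/-!
# MP_33eb55_co: the signed `[0,s]`-critical number of cyclic groups of odd order

For every odd `n` and every `s ≥ 1` the signed `[0,s]`-critical number of `Z_n` is `v_±(n,s) + 1`.
For odd `n` divisible by `3` and `s ≥ 3` this number is `n / 3 + 1`.

The proof applies Kneser's theorem to the `s`-fold sumset of `A ∪ (-A) ∪ {0}` and uses that a
symmetric set which contains `0` has an odd number of elements in a group of odd order.
-/

set_option autoImplicit false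

open scoped Pointwise
open Finset

namespace Pool.Agent.Results.MP_33eb55_co.OddCriticalNumber

open Pool.Agent.Helper549 Pool.Agent.Helper549.Kneser

/-- The `h`-fold signed sumset `h_± A` of a finite set `A ⊆ Z_n`: all sums `∑ λ_a a` with integer
coefficients `λ_a`, `a ∈ A`, such that `∑ |λ_a| = h`. -/
def signedSumset {n : ℕ} (h : ℕ) (A : Finset (ZMod n)) : Set (ZMod n) :=
  {x | ∃ c : ZMod n → ℤ, ∑ a ∈ A, |c a| = (h : ℤ) ∧ ∑ a ∈ A, c a • a = x}

/-- `[0,s]_± A`, the union of the sets `h_± A` for `h = 0, …, s`. -/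
def signedSpan {n : ℕ} (s : ℕ) (A : Finset (ZMod n)) : Set (ZMod n) :=
  {x | ∃ h : ℕ, h ≤ s ∧ x ∈ signedSumset h A}

/-- The signed `[0,s]`-critical number of `Z_n`: the least `m` such that every `m`-element subset
`A` of `Z_n` satisfies `[0,s]_± A = Z_n`. -/
noncomputable def chi (n s : ℕ) : ℕ :=
  sInf {m : ℕ | ∀ A : Finset (ZMod n), A.card = m → signedSpan s A = Set.univ}

/-- `v_±(n,h) = max {(2 ⌊(d - 2) / (2 h)⌋ + 1) n / d : d ∣ n}`. -/
noncomputable def vpm (n h : ℕ) : ℤ :=
  sSup {x : ℤ | ∃ d ∈ n.divisors, x = (2 * ⌊((d : ℚ) - 2) / (2 * h)⌋ + 1) * ((n / d : ℕ) : ℤ)}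

section General

variable {G : Type*} [AddCommGroup G] [Fintype G] [DecidableEq G]

theorem fs_add_fs (H : AddSubgroup G) : fs H + fs H = fs H := by
  apply add_fs_stab
  intro g hg x
  rw [mem_fs, mem_fs]
  exact ⟨fun hx => H.add_mem hx hg, fun hx => by
    have := H.sub_mem hx hg
    rwa [add_sub_cancel_right] at this⟩

theorem succ_nsmul_fs (H : AddSubgroup G) (s : ℕ) : (s + 1) • fs H = fs H := by
  induction s with
  | zero => simp
  | succ s ih => rw [succ_nsmul, ih, fs_add_fs]

theorem succ_nsmul_add_fs (H : AddSubgroup G) (B : Finset G) (s : ℕ) :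
    (s + 1) • (B + fs H) = (s + 1) • B + fs H := by
  rw [nsmul_add, succ_nsmul_fs]

/-- Kneser's theorem for the `(s + 1)`-fold sumset. -/
theorem kneser_nsmul (s : ℕ) : ∀ B : Finset G, B.Nonempty →
    (s + 1) * (B + fs (stab ((s + 1) • B))).card ≤
      ((s + 1) • B).card + s * (fs (stab ((s + 1) • B))).card := by
  induction s with
  | zero =>
    intro B hB
    simp only [zero_add, one_nsmul, one_mul, zero_mul, add_zero]
    rw [add_fs_stab B (stab B) le_rfl]
  | succ s ih =>
    intro B hB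
    have e0 : (s + 1 + 1) • B = (s + 1) • B + B := succ_nsmul B (s + 1)
    rw [e0]
    set H := stab ((s + 1) • B + B) with hH
    have hsB : ((s + 1) • B).Nonempty := hB.nsmul
    have k1 := kneser' ((s + 1) • B) B hsB hB
    rw [← hH] at k1
    set B' := B + fs H with hB'
    have e1 : (s + 1) • B' = (s + 1) • B + fs H := succ_nsmul_add_fs H B s
    have hK : stab ((s + 1) • B') = H := by
      rw [e1]
      apply le_antisymm
      · intro g hg
        rw [hH]
        apply mem_stab_of_forall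
        intro x hx
        obtain ⟨y, hy, b, hb, rfl⟩ := Finset.mem_add.mp hx
        have hy' : y ∈ (s + 1) • B + fs H := by
          have := Finset.add_mem_add hy (mem_fs.mpr H.zero_mem)
          rwa [add_zero] at this
        have h2 := stab_add hg hy'
        obtain ⟨y', hy', f, hf, hyf⟩ := Finset.mem_add.mp h2
        have h3 : y' + b + f ∈ (s + 1) • B + B + fs H :=
          Finset.add_mem_add (Finset.add_mem_add hy' hb) hf
        rw [add_fs_stab _ H (le_of_eq hH)] at h3
        have : y + b + g = y' + b + f := by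
          rw [add_right_comm, ← hyf]; abel
        rw [this]
        exact h3
      · exact le_stab_add H _
    have hB'ne : B'.Nonempty := hB.add (fs_nonempty H)
    have k2 := ih B' hB'ne
    rw [hK] at k2
    have e2 : B' + fs H = B' := by
      rw [hB', add_assoc, fs_add_fs]
    rw [e2, e1] at k2
    nlinarith

omit [DecidableEq G] in
theorem ne_neg_self (hodd : Odd (Fintype.card G)) {x : G} (hx : x ≠ 0) : -x ≠ x := by
  intro h
  apply hx
  have h2 : 2 • x = 0 := by
    rw [two_nsmul]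
    nth_rewrite 1 [← h]
    simp
  have h3 : addOrderOf x ∣ 2 := addOrderOf_dvd_of_nsmul_eq_zero h2
  have h4 : addOrderOf x ∣ Fintype.card G := addOrderOf_dvd_card
  have h5 : addOrderOf x ∣ Nat.gcd 2 (Fintype.card G) := Nat.dvd_gcd h3 h4
  have h6 : Nat.gcd 2 (Fintype.card G) = 1 := by
    have : Nat.Coprime 2 (Fintype.card G) := Nat.coprime_two_left.mpr hodd
    exact this
  rw [h6, Nat.dvd_one] at h5
  exact AddMonoid.addOrderOf_eq_one_iff.mp h5

/-- A symmetric set which contains `0` has odd size in a group of odd order. -/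
theorem odd_card_symm (hodd : Odd (Fintype.card G)) (C : Finset G) (h0 : (0 : G) ∈ C)
    (hneg : ∀ x ∈ C, -x ∈ C) : Odd C.card := by
  have h1 : ∑ x ∈ C.erase 0, (1 : ZMod 2) = 0 := by
    refine Finset.sum_involution (fun a _ => -a) ?_ ?_ ?_ ?_
    · intro a _
      decide
    · intro a ha _
      exact ne_neg_self hodd (Finset.ne_of_mem_erase ha)
    · intro a ha
      rw [Finset.mem_erase] at ha ⊢
      exact ⟨neg_ne_zero.mpr ha.1, hneg a ha.2⟩
    · intro a _
      exact neg_neg a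
  rw [Finset.sum_const, nsmul_eq_mul, mul_one, ZMod.natCast_eq_zero_iff] at h1
  rw [Finset.card_erase_of_mem h0] at h1
  have hpos : 0 < C.card := Finset.card_pos.mpr ⟨0, h0⟩
  obtain ⟨k, hk⟩ := h1
  exact ⟨k, by omega⟩

/-- The Kneser bound in the form needed below. -/
theorem kneser_symm (hodd : Odd (Fintype.card G)) (B : Finset G) (h0 : (0 : G) ∈ B)
    (hneg : ∀ x ∈ B, -x ∈ B) (s : ℕ) (hs : 1 ≤ s) (hne : s • B ≠ Finset.univ) :
    ∃ d c : ℕ, d ∣ Fintype.card G ∧ 2 ≤ d ∧ 2 * s * c + 2 ≤ d ∧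
      B.card ≤ (2 * c + 1) * (Fintype.card G / d) := by
  obtain ⟨t, rfl⟩ : ∃ t, s = t + 1 := ⟨s - 1, by omega⟩
  set H := stab ((t + 1) • B) with hH
  have k := kneser_nsmul t B ⟨0, h0⟩
  rw [← hH] at k
  have hpos : 0 < (fs H).card := fs_card_pos H
  obtain ⟨d, hd⟩ := card_dvd_univ H
  obtain ⟨q, hq⟩ := card_dvd H ((t + 1) • B) (le_of_eq hH)
  obtain ⟨b, hb⟩ := card_dvd H (B + fs H) (le_stab_add H B)
  have hlt : ((t + 1) • B).card < Fintype.card G := by
    rw [← Finset.card_univ]
    exact Finset.card_lt_card (Finset.ssubset_univ_iff.mpr hne)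
  have hqd : q < d := by
    rw [hq, hd] at hlt
    exact lt_of_mul_lt_mul_left hlt (Nat.zero_le _)
  have h0' : (0 : G) ∈ B + fs H := by
    have := Finset.add_mem_add h0 (mem_fs.mpr H.zero_mem)
    rwa [add_zero] at this
  have hodd2 : Odd (B + fs H).card := by
    apply odd_card_symm hodd _ h0'
    intro x hx
    obtain ⟨y, hy, f, hf, rfl⟩ := Finset.mem_add.mp hx
    rw [neg_add]
    exact Finset.add_mem_add (hneg y hy) (mem_fs.mpr (H.neg_mem (mem_fs.mp hf)))
  rw [hb] at hodd2
  have hbodd : Odd b := (Nat.odd_mul.mp hodd2).2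
  obtain ⟨c, rfl⟩ := hbodd
  rw [hb, hq] at k
  have k2 : (t + 1) * (2 * c + 1) ≤ q + t := by
    have : (fs H).card * ((t + 1) * (2 * c + 1)) ≤ (fs H).card * (q + t) := by nlinarith
    exact le_of_mul_le_mul_left this hpos
  have hBle : B.card ≤ (B + fs H).card := by
    apply Finset.card_le_card
    intro x hx
    have := Finset.add_mem_add hx (mem_fs.mpr H.zero_mem)
    rwa [add_zero] at this
  have hdpos : 0 < d := by omega
  refine ⟨d, c, ⟨(fs H).card, by rw [hd, mul_comm]⟩, ?_, ?_, ?_⟩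
  · have : 2 ≤ d := by
      rcases Nat.lt_or_ge 1 d with h | h
      · exact h
      · exfalso
        have : q = 0 := by omega
        subst this
        rw [mul_zero, Finset.card_eq_zero] at hq
        have hne2 : ((t + 1) • B).Nonempty := Finset.Nonempty.nsmul ⟨0, h0⟩
        rw [hq] at hne2
        exact Finset.not_nonempty_empty hne2
    exact this
  · nlinarith
  · have : Fintype.card G / d = (fs H).card := by
      rw [hd]
      exact Nat.mul_div_cancel _ hdpos
    rw [this, mul_comm]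
    rw [hb] at hBle
    exact hBle

end General

/-- The set whose supremum is `vpm n h`. -/
def vset (n h : ℕ) : Set ℤ :=
  {x : ℤ | ∃ d ∈ n.divisors, x = (2 * ⌊((d : ℚ) - 2) / (2 * h)⌋ + 1) * ((n / d : ℕ) : ℤ)}

theorem vset_finite (n h : ℕ) : (vset n h).Finite := by
  apply Set.Finite.subset ((n.divisors.image (fun d : ℕ =>
    (2 * ⌊((d : ℚ) - 2) / (2 * h)⌋ + 1) * ((n / d : ℕ) : ℤ))).finite_toSet)
  rintro x ⟨d, hd, rfl⟩
  rw [Finset.mem_coe, Finset.mem_image]
  exact ⟨d, hd, rfl⟩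

theorem vpm_eq (n h : ℕ) : vpm n h = sSup (vset n h) := rfl

theorem le_vpm {n d h : ℕ} (hn : n ≠ 0) (hd : d ∣ n) :
    (2 * ⌊((d : ℚ) - 2) / (2 * h)⌋ + 1) * ((n / d : ℕ) : ℤ) ≤ vpm n h := by
  rw [vpm_eq]
  exact le_csSup (vset_finite n h).bddAbove ⟨d, Nat.mem_divisors.mpr ⟨hd, hn⟩, rfl⟩

theorem exists_vpm {n : ℕ} (hn : n ≠ 0) (h : ℕ) :
    ∃ d : ℕ, d ∣ n ∧ vpm n h = (2 * ⌊((d : ℚ) - 2) / (2 * h)⌋ + 1) * ((n / d : ℕ) : ℤ) := by
  have hne : (vset n h).Nonempty := ⟨_, n, Nat.mem_divisors.mpr ⟨dvd_rfl, hn⟩, rfl⟩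
  obtain ⟨d, hd, h2⟩ := hne.csSup_mem (vset_finite n h)
  exact ⟨d, (Nat.mem_divisors.mp hd).1, h2⟩

theorem mem_signedSpan {n s : ℕ} {A : Finset (ZMod n)} {x : ZMod n} :
    x ∈ signedSpan s A ↔ ∃ c : ZMod n → ℤ, ∑ a ∈ A, |c a| ≤ (s : ℤ) ∧ ∑ a ∈ A, c a • a = x := by
  constructor
  · rintro ⟨h, hh, c, h1, h2⟩
    exact ⟨c, by rw [h1]; exact_mod_cast hh, h2⟩
  · rintro ⟨c, h1, h2⟩
    have h0 : 0 ≤ ∑ a ∈ A, |c a| := Finset.sum_nonneg (fun a _ => abs_nonneg (c a))
    refine ⟨(∑ a ∈ A, |c a|).toNat, ?_, c, ?_, h2⟩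
    · omega
    · exact (Int.toNat_of_nonneg h0).symm

theorem signedSpan_mono {n s : ℕ} {A A' : Finset (ZMod n)} (h : A' ⊆ A) :
    signedSpan s A' ⊆ signedSpan s A := by
  classical
  intro x hx
  rw [mem_signedSpan] at hx ⊢
  obtain ⟨c, h1, h2⟩ := hx
  refine ⟨fun a => if a ∈ A' then c a else 0, ?_, ?_⟩
  · have : ∑ a ∈ A, |(if a ∈ A' then c a else 0)| = ∑ a ∈ A', |c a| := by
      rw [← Finset.sum_subset h]
      · apply Finset.sum_congr rfl
        intro a ha
        rw [if_pos ha]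
      · intro a _ ha
        rw [if_neg ha, abs_zero]
    rw [this]
    exact h1
  · rw [← h2, ← Finset.sum_subset h]
    · apply Finset.sum_congr rfl
      intro a ha
      simp only [if_pos ha]
    · intro a _ ha
      simp only [if_neg ha, zero_smul]

/-- Sums of `s` elements of `A ∪ (-A) ∪ {0}` are signed sums of elements of `A`. -/
theorem nsmul_subset {n : ℕ} [NeZero n] (A : Finset (ZMod n)) (s : ℕ) :
    ∀ x ∈ s • (insert (0 : ZMod n) (A ∪ -A)), x ∈ signedSpan s A := by
  classical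
  induction s with
  | zero =>
    intro x hx
    rw [zero_nsmul, Finset.mem_zero] at hx
    rw [mem_signedSpan]
    exact ⟨fun _ => 0, by simp, by simp [hx]⟩
  | succ s ih =>
    intro x hx
    rw [succ_nsmul] at hx
    obtain ⟨y, hy, b, hb, rfl⟩ := Finset.mem_add.mp hx
    have hy2 := ih y hy
    rw [mem_signedSpan] at hy2 ⊢
    obtain ⟨c, h1, h2⟩ := hy2
    have upd : ∀ a0 ∈ A, ∀ ε : ℤ, |ε| = 1 →
        ∃ c : ZMod n → ℤ, ∑ a ∈ A, |c a| ≤ ((s + 1 : ℕ) : ℤ) ∧ ∑ a ∈ A, c a • a = y + ε • a0 := by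
      intro a0 ha0 ε hε
      refine ⟨fun a => c a + (if a = a0 then ε else 0), ?_, ?_⟩
      · have h3 : ∑ a ∈ A, |c a + (if a = a0 then ε else 0)| ≤
            ∑ a ∈ A, (|c a| + |(if a = a0 then ε else 0)|) :=
          Finset.sum_le_sum (fun a _ => abs_add_le _ _)
        rw [Finset.sum_add_distrib] at h3
        have h4 : ∑ a ∈ A, |(if a = a0 then ε else 0)| = 1 := by
          rw [Finset.sum_eq_single a0]
          · rw [if_pos rfl, hε]
          · intro a _ hne
            rw [if_neg hne, abs_zero]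
          · intro h; exact absurd ha0 h
        rw [h4] at h3
        push_cast
        linarith
      · simp only [add_smul, Finset.sum_add_distrib, h2]
        congr 1
        rw [Finset.sum_eq_single a0]
        · rw [if_pos rfl]
        · intro a _ hne
          rw [if_neg hne, zero_smul]
        · intro h; exact absurd ha0 h
    rw [Finset.mem_insert, Finset.mem_union, Finset.mem_neg'] at hb
    rcases hb with rfl | hb | hb
    · refine ⟨c, ?_, ?_⟩
      · push_cast
        linarith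
      · rw [h2, add_zero]
    · obtain ⟨c', h3, h4⟩ := upd b hb 1 (by norm_num)
      exact ⟨c', h3, by rw [h4, one_smul]⟩
    · obtain ⟨c', h3, h4⟩ := upd (-b) hb (-1) (by norm_num)
      exact ⟨c', h3, by rw [h4, neg_smul, one_smul, neg_neg]⟩

/-- Upper bound: sets which do not span have at most `v_±(n,s)` elements. -/
theorem upper {n s : ℕ} (hn : Odd n) (hs : 1 ≤ s) (A : Finset (ZMod n))
    (h : signedSpan s A ≠ Set.univ) : (A.card : ℤ) ≤ vpm n s := by
  classical
  have hn0 : n ≠ 0 := by rintro rfl; simp at hn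
  have : NeZero n := ⟨hn0⟩
  set B : Finset (ZMod n) := insert (0 : ZMod n) (A ∪ -A) with hB
  have h0 : (0 : ZMod n) ∈ B := Finset.mem_insert_self _ _
  have hneg : ∀ x ∈ B, -x ∈ B := by
    intro x hx
    rw [hB, Finset.mem_insert, Finset.mem_union, Finset.mem_neg'] at hx ⊢
    rcases hx with rfl | hx | hx
    · left; simp
    · right; right; rwa [neg_neg]
    · right; left; exact hx
  have hne : s • B ≠ Finset.univ := by
    intro hu
    apply h
    rw [Set.eq_univ_iff_forall]
    intro x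
    apply nsmul_subset A s x
    rw [← hB, hu]
    exact Finset.mem_univ x
  have hodd : Odd (Fintype.card (ZMod n)) := by rwa [ZMod.card]
  obtain ⟨d, c, hd, h2d, hc, hcard⟩ := kneser_symm hodd B h0 hneg s hs hne
  rw [ZMod.card] at hd hcard
  have hAB : A.card ≤ B.card := by
    apply Finset.card_le_card
    intro x hx
    rw [hB, Finset.mem_insert, Finset.mem_union]
    right; left; exact hx
  have hfl : (c : ℤ) ≤ ⌊((d : ℚ) - 2) / (2 * s)⌋ := by
    rw [Int.le_floor]
    have hs0 : (0 : ℚ) < 2 * s := by positivity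
    rw [le_div_iff₀ hs0]
    have : ((2 * s * c + 2 : ℕ) : ℚ) ≤ (d : ℚ) := by exact_mod_cast hc
    push_cast at this ⊢
    linarith
  calc (A.card : ℤ) ≤ (B.card : ℤ) := by exact_mod_cast hAB
    _ ≤ (((2 * c + 1) * (n / d) : ℕ) : ℤ) := by exact_mod_cast hcard
    _ = (2 * (c : ℤ) + 1) * ((n / d : ℕ) : ℤ) := by push_cast; ring
    _ ≤ (2 * ⌊((d : ℚ) - 2) / (2 * s)⌋ + 1) * ((n / d : ℕ) : ℤ) := by
        apply mul_le_mul_of_nonneg_right _ (Int.natCast_nonneg _)
        linarith
    _ ≤ vpm n s := le_vpm hn0 hd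

/-- The extremal example: `2 c + 1` consecutive cosets. -/
theorem example_set {n d : ℕ} (hn : n ≠ 0) (hd : d ∣ n) (s c : ℕ) (hc : 2 * s * c + 2 ≤ d)
    (hs : 1 ≤ s) :
    ∃ A : Finset (ZMod n), A.card = (2 * c + 1) * (n / d) ∧ signedSpan s A ≠ Set.univ := by
  classical
  have hnz : NeZero n := ⟨hn⟩
  obtain ⟨q, hq⟩ := hd
  have hd0 : 0 < d := by omega
  have hnd : n / d = q := by rw [hq]; exact Nat.mul_div_cancel_left _ hd0
  have hcd : 2 * c + 1 < d := by nlinarith
  let f : ℕ × ℕ → ZMod n := fun p => (((p.1 : ℤ) - c + d * p.2 : ℤ) : ZMod n)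
  have hinj : Set.InjOn f (range (2 * c + 1) ×ˢ range q : Finset (ℕ × ℕ)) := by
    rintro ⟨i, j⟩ h1 ⟨i', j'⟩ h2 h
    rw [Finset.mem_coe, Finset.mem_product, Finset.mem_range, Finset.mem_range] at h1 h2
    simp only at h1 h2
    have h3 : (((i : ℤ) - c + d * j : ℤ) : ZMod n) = (((i' : ℤ) - c + d * j' : ℤ) : ZMod n) := h
    rw [ZMod.intCast_eq_intCast_iff_dvd_sub] at h3
    have hdn : (d : ℤ) ∣ (n : ℤ) := by exact_mod_cast (⟨q, hq⟩ : d ∣ n)
    have h4 : (d : ℤ) ∣ (i' : ℤ) - i := by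
      have h5 := dvd_trans hdn h3
      have h6 : (i' : ℤ) - i = ((i' : ℤ) - c + d * j' - ((i : ℤ) - c + d * j)) - d * (j' - j) := by
        ring
      rw [h6]
      exact dvd_sub h5 (dvd_mul_right _ _)
    have h5 : (i' : ℤ) - i = 0 := by
      apply Int.eq_zero_of_abs_lt_dvd h4
      rw [abs_lt]
      constructor <;> omega
    have hii : i' = i := by omega
    subst hii
    have h6 : (n : ℤ) ∣ d * ((j' : ℤ) - j) := by
      have : ((i' : ℤ) - c + d * j' - ((i' : ℤ) - c + d * j)) = d * ((j' : ℤ) - j) := by ring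
      rwa [this] at h3
    have h7 : (q : ℤ) ∣ (j' : ℤ) - j := by
      rw [hq] at h6
      push_cast at h6
      exact Int.dvd_of_mul_dvd_mul_left (by exact_mod_cast hd0.ne') h6
    have h8 : (j' : ℤ) - j = 0 := by
      apply Int.eq_zero_of_abs_lt_dvd h7
      rw [abs_lt]
      constructor <;> omega
    have : j' = j := by omega
    rw [this]
  refine ⟨(range (2 * c + 1) ×ˢ range q).image f, ?_, ?_⟩
  · rw [Finset.card_image_of_injOn hinj, Finset.card_product, Finset.card_range, Finset.card_range,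
      hnd]
  · intro huniv
    have hdn : d ∣ n := ⟨q, hq⟩
    let φ : ZMod n →+* ZMod d := ZMod.castHom hdn (ZMod d)
    have hex : ∀ a ∈ (range (2 * c + 1) ×ˢ range q).image f,
        ∃ t : ℤ, |t| ≤ c ∧ φ a = (t : ZMod d) := by
      intro a ha
      obtain ⟨⟨i, j⟩, hij, rfl⟩ := Finset.mem_image.mp ha
      rw [Finset.mem_product, Finset.mem_range, Finset.mem_range] at hij
      simp only at hij
      refine ⟨(i : ℤ) - c, ?_, ?_⟩
      · rw [abs_le]
        constructor <;> omega
      · have : φ (f (i, j)) = (((i : ℤ) - c + d * j : ℤ) : ZMod d) := map_intCast φ _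
        rw [this]
        push_cast
        simp
    choose! t ht1 ht2 using hex
    have hx : (((s * c + 1 : ℕ) : ZMod n)) ∈ signedSpan s ((range (2 * c + 1) ×ˢ range q).image f) := by
      rw [huniv]; exact Set.mem_univ _
    rw [mem_signedSpan] at hx
    obtain ⟨l, hl1, hl2⟩ := hx
    have h1 := congrArg φ hl2
    rw [map_sum, map_natCast] at h1
    have h2 : ∑ a ∈ (range (2 * c + 1) ×ˢ range q).image f, φ (l a • a) =
        ((∑ a ∈ (range (2 * c + 1) ×ˢ range q).image f, l a * t a : ℤ) : ZMod d) := by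
      push_cast
      apply Finset.sum_congr rfl
      intro a ha
      rw [map_zsmul, ht2 a ha, zsmul_eq_mul]
    rw [h2] at h1
    set T : ℤ := ∑ a ∈ (range (2 * c + 1) ×ˢ range q).image f, l a * t a with hT
    have hTle : |T| ≤ s * c := by
      calc |T| ≤ ∑ a ∈ (range (2 * c + 1) ×ˢ range q).image f, |l a * t a| :=
            Finset.abs_sum_le_sum_abs _ _
        _ ≤ ∑ a ∈ (range (2 * c + 1) ×ˢ range q).image f, |l a| * c := by
            apply Finset.sum_le_sum
            intro a ha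
            rw [abs_mul]
            exact mul_le_mul_of_nonneg_left (ht1 a ha) (abs_nonneg _)
        _ = (∑ a ∈ (range (2 * c + 1) ×ˢ range q).image f, |l a|) * c := by
            rw [Finset.sum_mul]
        _ ≤ s * c := mul_le_mul_of_nonneg_right hl1 (Int.natCast_nonneg _)
    have h3 : ((T : ℤ) : ZMod d) = (((s * c + 1 : ℕ) : ℤ) : ZMod d) := by
      rw [h1]
      push_cast
      ring
    rw [ZMod.intCast_eq_intCast_iff_dvd_sub] at h3
    rw [abs_le] at hTle
    have h4 : ((s * c + 1 : ℕ) : ℤ) - T = 0 := by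
      apply Int.eq_zero_of_abs_lt_dvd h3
      rw [abs_lt]
      push_cast
      have hc' : (2 * (s : ℤ) * c + 2) ≤ d := by exact_mod_cast hc
      constructor
      · nlinarith [hTle.1, hTle.2]
      · nlinarith [hTle.1, hTle.2]
    push_cast at h4
    linarith [hTle.2]

theorem floor_nonneg_of {d s : ℕ} (h2 : 2 ≤ d) : 0 ≤ ⌊((d : ℚ) - 2) / (2 * s)⌋ := by
  apply Int.floor_nonneg.mpr
  apply div_nonneg
  · have : (2 : ℚ) ≤ d := by exact_mod_cast h2
    linarith
  · positivity

/-- For odd `n ≥ 3` there is a set with `v_±(n,s) ≥ 1` elements which does not span. -/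
theorem lower {n s : ℕ} (hn : Odd n) (hn3 : 3 ≤ n) (hs : 1 ≤ s) :
    ∃ A : Finset (ZMod n), (A.card : ℤ) = vpm n s ∧ signedSpan s A ≠ Set.univ := by
  have hn0 : n ≠ 0 := by omega
  obtain ⟨d, hd, hv⟩ := exists_vpm hn0 s
  have hs0 : (0 : ℚ) < 2 * s := by positivity
  have hpos : 1 ≤ vpm n s := by
    have h1 := le_vpm (h := s) hn0 (dvd_refl n)
    rw [Nat.div_self (by omega)] at h1
    have h2 := floor_nonneg_of (s := s) (show 2 ≤ n by omega)
    push_cast at h1
    linarith
  have hd2 : 2 ≤ d := by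
    by_contra hcon
    have hd0 : d ≠ 0 := by
      rintro rfl
      exact hn0 (zero_dvd_iff.mp hd)
    have hd1 : d = 1 := by omega
    subst hd1
    have hfl : ⌊(((1 : ℕ) : ℚ) - 2) / (2 * s)⌋ < 0 := by
      rw [Int.floor_lt]
      push_cast
      apply div_neg_of_neg_of_pos _ hs0
      norm_num
    rw [hv] at hpos
    have h3 : (0 : ℤ) ≤ ((n / 1 : ℕ) : ℤ) := Int.natCast_nonneg _
    nlinarith
  have hc0 := floor_nonneg_of (s := s) hd2
  obtain ⟨c, hc⟩ := Int.eq_ofNat_of_zero_le hc0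
  have hle : 2 * s * c + 2 ≤ d := by
    have h1 : ((c : ℤ) : ℚ) ≤ ((d : ℚ) - 2) / (2 * s) := by
      rw [← Int.le_floor, hc]
    rw [le_div_iff₀ hs0] at h1
    have : ((2 * s * c + 2 : ℕ) : ℚ) ≤ (d : ℚ) := by
      push_cast
      push_cast at h1
      linarith
    exact_mod_cast this
  obtain ⟨A, hA1, hA2⟩ := example_set hn0 hd s c hle hs
  refine ⟨A, ?_, hA2⟩
  rw [hA1, hv, hc]
  push_cast
  ring

theorem chi_eq {n s : ℕ} (hn : Odd n) (hs : 1 ≤ s) : (chi n s : ℤ) = vpm n s + 1 := by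
  have hn0 : n ≠ 0 := by rintro rfl; simp at hn
  rcases Nat.lt_or_ge n 3 with h3 | h3
  · have hn1 : n = 1 := by
      rcases hn with ⟨k, hk⟩
      omega
    subst hn1
    have hchi : chi 1 s = 0 := by
      unfold chi
      apply Nat.sInf_eq_zero.mpr
      left
      intro A _
      rw [Set.eq_univ_iff_forall]
      intro x
      rw [mem_signedSpan]
      refine ⟨fun _ => 0, by simp, Subsingleton.elim _ _⟩
    have hv : vpm 1 s = -1 := by
      obtain ⟨d, hd, hv⟩ := exists_vpm (n := 1) (by norm_num) s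
      have hd1 : d = 1 := Nat.dvd_one.mp hd
      subst hd1
      have hs0 : (0 : ℚ) < 2 * s := by positivity
      have hfl : ⌊(((1 : ℕ) : ℚ) - 2) / (2 * s)⌋ = -1 := by
        rw [Int.floor_eq_iff]
        push_cast
        constructor
        · rw [le_div_iff₀ hs0]
          have : (1 : ℚ) ≤ s := by exact_mod_cast hs
          linarith
        · rw [div_lt_iff₀ hs0]
          norm_num
      rw [hv, hfl]
      norm_num
    rw [hchi, hv]
    norm_num
  · obtain ⟨A, hA1, hA2⟩ := lower hn h3 hs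
    have hmem : A.card + 1 ∈
        {m : ℕ | ∀ A : Finset (ZMod n), A.card = m → signedSpan s A = Set.univ} := by
      intro A' hA'
      by_contra hcon
      have := upper hn hs A' hcon
      rw [← hA1, hA'] at this
      push_cast at this
      linarith
    have hle : chi n s ≤ A.card + 1 := Nat.sInf_le hmem
    have hge : A.card + 1 ≤ chi n s := by
      by_contra hcon
      have hlt : chi n s ≤ A.card := by omega
      have hmem2 : chi n s ∈
          {m : ℕ | ∀ A : Finset (ZMod n), A.card = m → signedSpan s A = Set.univ} :=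
        Nat.sInf_mem ⟨_, hmem⟩
      obtain ⟨A', hA'1, hA'2⟩ := Finset.exists_subset_card_eq hlt
      have h5 := hmem2 A' hA'2
      apply hA2
      rw [Set.eq_univ_iff_forall]
      intro x
      apply signedSpan_mono hA'1
      rw [h5]
      exact Set.mem_univ x
    have : chi n s = A.card + 1 := le_antisymm hle hge
    rw [this, ← hA1]
    push_cast
    ring

theorem vpm_three {n s : ℕ} (hn : Odd n) (h3 : 3 ∣ n) (hs : 3 ≤ s) : vpm n s = ((n / 3 : ℕ) : ℤ) := by
  have hn0 : n ≠ 0 := by rintro rfl; simp at hn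
  have hs0 : (0 : ℚ) < 2 * s := by positivity
  apply le_antisymm
  · obtain ⟨d, hd, hv⟩ := exists_vpm hn0 s
    have hdodd : Odd d := Odd.of_dvd_nat hn hd
    rw [hv]
    set c : ℤ := ⌊((d : ℚ) - 2) / (2 * s)⌋ with hc
    have hd0 : 0 < d := Nat.pos_of_dvd_of_pos hd (by omega)
    have h6 : 6 * c + 2 ≤ d := by
      rcases le_or_gt 0 c with h | h
      · have h1 : ((c : ℤ) : ℚ) ≤ ((d : ℚ) - 2) / (2 * s) := Int.floor_le _
        rw [le_div_iff₀ hs0] at h1
        have h2 : (c : ℚ) * (2 * 3) ≤ (c : ℚ) * (2 * s) := by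
          apply mul_le_mul_of_nonneg_left _ (by exact_mod_cast h)
          have : (3 : ℚ) ≤ s := by exact_mod_cast hs
          linarith
        have : ((6 * c + 2 : ℤ) : ℚ) ≤ ((d : ℤ) : ℚ) := by
          push_cast
          linarith
        exact_mod_cast this
      · omega
    have h7 : 3 * (2 * c + 1) ≤ d := by
      obtain ⟨k, hk⟩ := hdodd
      omega
    obtain ⟨q, hq⟩ := hd
    obtain ⟨r, hr⟩ := h3
    have e1 : n / d = q := by rw [hq]; exact Nat.mul_div_cancel_left _ hd0
    have e2 : n / 3 = r := by rw [hr]; exact Nat.mul_div_cancel_left _ (by norm_num)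
    rw [e1, e2]
    have h8 : 3 * (2 * c + 1) * q ≤ d * q := mul_le_mul_of_nonneg_right h7 (Int.natCast_nonneg _)
    have h9 : (d : ℤ) * q = 3 * r := by
      have : d * q = 3 * r := by rw [← hq, ← hr]
      exact_mod_cast this
    linarith
  · have h1 := le_vpm (h := s) hn0 h3
    have h2 := floor_nonneg_of (s := s) (show 2 ≤ 3 by norm_num)
    have h4 : (0 : ℤ) ≤ ((n / 3 : ℕ) : ℤ) := Int.natCast_nonneg _
    nlinarith

/-- For odd `n` and `s ≥ 1` the signed `[0,s]`-critical number of `Z_n` is `v_±(n,s) + 1`; for odd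
`n` divisible by `3` and `s ≥ 3` one has `v_±(n,s) = n / 3` and the critical number is
`n / 3 + 1`. -/
theorem result (n : ℕ) (hn : Odd n) :
    (∀ s : ℕ, 1 ≤ s → (chi n s : ℤ) = vpm n s + 1) ∧
    (3 ∣ n → ∀ s : ℕ, 3 ≤ s → vpm n s = ((n / 3 : ℕ) : ℤ) ∧ chi n s = n / 3 + 1) := by
  refine ⟨fun s hs => chi_eq hn hs, fun h3 s hs => ⟨vpm_three hn h3 hs, ?_⟩⟩
  have h1 := chi_eq hn (show 1 ≤ s by omega)
  rw [vpm_three hn h3 hs] at h1
  exact_mod_cast h1

end Pool.Agent.Results.MP_33eb55_co.OddCriticalNumber
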